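import Mathlib
import Pool.Agent.Helper43.RK.St

/-!
# Project RK (MP_b3ce06_al), module RS1
-/

set_option autoImplicit false

open Pool.Agent.Helper43.RK

namespace Pool.Agent.Helper71.RK

/-- an additive subgroup containing the powers of `x` contains the subring generated by `x` -/
lemma rsClosure {R : Type} [CommRing R] (x : R) (T : AddSubgroup R) (hT : ∀ i : ℕ, x ^ i ∈ T)
    (z : R) (hz : z ∈ Subring.closure ({x} : Set R)) : z ∈ T := by
  have h1 : Subring.closure ({x} : Set R) ≤
      (Polynomial.eval₂RingHom (Int.castRingHom R) x).range := by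
    rw [Subring.closure_le]
    intro w hw
    rw [Set.mem_singleton_iff] at hw
    rw [hw]
    exact ⟨Polynomial.X, by simp⟩
  obtain ⟨p, hp⟩ := h1 hz
  rw [← hp, Polynomial.coe_eval₂RingHom, Polynomial.eval₂_eq_sum_range]
  refine T.sum_mem ?_
  intro i _
  have h2 : (Int.castRingHom R) (p.coeff i) * x ^ i = (p.coeff i) • x ^ i := by
    simp [zsmul_eq_mul]
  rw [h2]
  exact T.zsmul_mem (hT i) _

/-- inverses of units of finite rings -/
lemma rsInv {R : Type} [CommRing R] [Finite R] (K : Subring R) (u : Rˣ) (hu : (u : R) ∈ K) :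
    ((u⁻¹ : Rˣ) : R) ∈ K := by
  have hfin : IsOfFinOrder u := isOfFinOrder_of_finite u
  have hpos : 0 < orderOf u := hfin.orderOf_pos
  have h1 : u ^ orderOf u = 1 := pow_orderOf_eq_one u
  have h2 : u⁻¹ = u ^ (orderOf u - 1) := by
    rw [inv_eq_iff_mul_eq_one, ← pow_succ']
    rw [Nat.sub_add_cancel hpos]
    exact h1
  rw [h2, Units.val_pow_eq_pow_val]
  exact K.pow_mem hu _

theorem hRS1 : StRS1 := by
  intro R _ _ G _ D
  have hfix3 : ∀ r : R, ∃ α β : R, D.bar α = α ∧ D.bar β = β ∧ r = α + β * (D.y : R) := by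
    intro r
    refine ⟨r + (r + D.bar r) * (D.y : R), r + D.bar r, ?_, ?_, ?_⟩
    · rw [map_add, map_mul, map_add, D.barb, D.bary, D.yb_eq]
      have h := D.two (D.bar r)
      linear_combination h
    · rw [map_add, D.barb, add_comm]
    · have h := D.two ((r + D.bar r) * (D.y : R))
      linear_combination -h
  refine ⟨?_, ?_, hfix3, ?_⟩
  · intro T hT
    set K := Subring.closure ({(D.s : R)} : Set R) with hK
    have hs : (D.s : R) ∈ K := Subring.subset_closure (Set.mem_singleton _)
    have h1 : ((D.yb⁻¹ : Rˣ) : R) = 1 + (D.s : R) := by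
      have h2 : (D.yb : R) * ((D.yb⁻¹ : Rˣ) : R) = 1 := Units.mul_inv _
      have hs' : (D.s : R) = (D.y : R) * ((D.yb⁻¹ : Rˣ) : R) := by simp [Dt.s]
      rw [hs']
      have h3 := D.hy
      linear_combination -((D.yb⁻¹ : Rˣ) : R) * h3 + h2
    have h2 : ((D.yb⁻¹ : Rˣ) : R) ∈ K := by
      rw [h1]
      exact K.add_mem K.one_mem hs
    have h3 : (D.yb : R) ∈ K := by
      have h4 := rsInv K D.yb⁻¹ h2
      rwa [inv_inv] at h4
    have h4 : (D.y : R) ∈ K := by
      rw [D.y_eq]
      exact K.add_mem K.one_mem h3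
    have h5 : K = ⊤ := D.gen K h4
    rw [eq_top_iff]
    intro z _
    have h6 : z ∈ K := by
      rw [h5]
      exact Subring.mem_top z
    exact rsClosure _ T hT z h6
  · intro T hT r hr
    set K := Subring.closure ({(D.e : R)} : Set R) with hK
    have he : (D.e : R) ∈ K := Subring.subset_closure (Set.mem_singleton _)
    have hd : (D.y : R) * (D.yb : R) ∈ K := by
      have h4 := rsInv K D.e he
      have h5 : ((D.e⁻¹ : Rˣ) : R) = (D.y : R) * (D.yb : R) := by simp [Dt.e]
      rwa [h5] at h4
    have hfix : ∀ z ∈ K, D.bar z = z := by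
      have h1 : K ≤ RingHom.eqLocus D.bar (RingHom.id R) := by
        rw [hK, Subring.closure_le]
        intro w hw
        rw [Set.mem_singleton_iff] at hw
        rw [hw]
        exact D.bar_e
      intro z hz
      exact h1 hz
    let M : Subring R :=
      { carrier := {z | ∃ α ∈ K, ∃ β ∈ K, z = α + β * (D.y : R)}
        mul_mem' := by
          rintro z z' ⟨α, hα, β, hβ, rfl⟩ ⟨α', hα', β', hβ', rfl⟩
          refine ⟨α * α' + β * β' * ((D.y : R) * (D.yb : R)),
            K.add_mem (K.mul_mem hα hα') (K.mul_mem (K.mul_mem hβ hβ') hd),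
            α * β' + β * α' + β * β',
            K.add_mem (K.add_mem (K.mul_mem hα hβ') (K.mul_mem hβ hα')) (K.mul_mem hβ hβ'), ?_⟩
          have h := D.y2
          linear_combination β * β' * h
        one_mem' := ⟨1, K.one_mem, 0, K.zero_mem, by ring⟩
        add_mem' := by
          rintro z z' ⟨α, hα, β, hβ, rfl⟩ ⟨α', hα', β', hβ', rfl⟩
          exact ⟨α + α', K.add_mem hα hα', β + β', K.add_mem hβ hβ', by ring⟩
        zero_mem' := ⟨0, K.zero_mem, 0, K.zero_mem, by ring⟩
        neg_mem' := by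
          rintro z ⟨α, hα, β, hβ, rfl⟩
          exact ⟨-α, K.neg_mem hα, -β, K.neg_mem hβ, by ring⟩ }
    have hM : M = ⊤ := by
      apply D.gen
      exact ⟨0, K.zero_mem, 1, K.one_mem, by ring⟩
    have hrM : r ∈ M := by
      rw [hM]
      exact Subring.mem_top r
    obtain ⟨α, hα, β, hβ, hrab⟩ := hrM
    have h1 : D.bar r = α + β * (D.yb : R) := by
      rw [hrab, map_add, map_mul, hfix α hα, hfix β hβ, D.bary]
    have h2 : β = 0 := by
      rw [hr, hrab, D.yb_eq] at h1
      linear_combination -h1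
    have h3 : r = α := by
      rw [hrab, h2]
      ring
    rw [h3]
    exact rsClosure _ T hT α hα
  · intro r
    obtain ⟨α, β, hα, hβ, hr⟩ := hfix3 r
    refine ⟨α + β, β, ?_, hβ, ?_⟩
    · rw [map_add, hα, hβ]
    · rw [hr, D.yb_eq]
      have h := D.two β
      linear_combination -h

end Pool.Agent.Helper71.RK
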